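import Pool.Agent.helper1.SOL.SpecN

set_option autoImplicit false

namespace Pool.Agent.SOL

open Pool.Agent.helper54.SOG Finset

open scoped BigOperators

theorem NMC_card (hCRD : CRD_stmt) (n t s : ℕ) :
    (TD n t s).ncard = n.choose t * (n - t).choose s * 2 ^ (t + s) := by
  rcases Nat.lt_or_ge n (t + s) with h | h
  · rw [hCRD.2.2 n t s h, Set.ncard_empty]
    rcases Nat.lt_or_ge n t with h1 | h1
    · rw [Nat.choose_eq_zero_of_lt h1, zero_mul, zero_mul]
    · rw [Nat.choose_eq_zero_of_lt (show n - t < s by omega), mul_zero, zero_mul]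
  · exact hCRD.2.1 n t s h

theorem NMC_VC (hBTY : BTY_stmt) (hCRD : CRD_stmt) (n k : ℕ) :
    (VC n k).ncard = ∑ t ∈ range (k + 1), (TD n t (2 * (k - t))).ncard := by
  classical
  have hfin : ∀ t, (TD n t (2 * (k - t))).Finite := fun t => hCRD.1 n t _
  have h1 : (VC n k) = ((range (k + 1)).biUnion fun t => (hfin t).toFinset : Finset (Vec n)) := by
    ext x
    rw [hBTY.2.1 n k x]
    simp only [coe_biUnion, Set.mem_iUnion, mem_coe, Set.Finite.mem_toFinset, mem_range]
    constructor
    · rintro ⟨h2, h3⟩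
      exact ⟨cnt x 2, by omega, h2, rfl, by omega⟩
    · rintro ⟨t, ht, h2, h3, h4⟩
      exact ⟨h2, by omega⟩
  rw [h1, Set.ncard_coe_finset, card_biUnion]
  · refine sum_congr rfl fun t _ => ?_
    rw [Set.ncard_eq_toFinset_card _ (hfin t)]
  · intro t _ t' _ hne
    rw [Function.onFun, disjoint_left]
    intro x hx hx'
    rw [Set.Finite.mem_toFinset] at hx hx'
    exact hne (hx.2.1.symm.trans hx'.2.1)

theorem NMC_sum (hBTY : BTY_stmt) (hCRD : CRD_stmt) (n k : ℕ) :
    (VC n k).ncard = ∑ t ∈ range (k + 1),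
      n.choose t * (n - t).choose (2 * (k - t)) * 2 ^ (t + 2 * (k - t)) := by
  rw [NMC_VC hBTY hCRD]
  exact sum_congr rfl fun t _ => NMC_card hCRD n t _

theorem NMC_ge (hBTY : BTY_stmt) (hCRD : CRD_stmt) (n k t : ℕ) (ht : t ≤ k) :
    n.choose t * (n - t).choose (2 * (k - t)) * 2 ^ (t + 2 * (k - t)) ≤ (VC n k).ncard := by
  rw [NMC_sum hBTY hCRD]
  exact single_le_sum (f := fun t => n.choose t * (n - t).choose (2 * (k - t)) *
    2 ^ (t + 2 * (k - t))) (fun i _ => Nat.zero_le _) (mem_range.2 (by omega))

theorem NMC_two (m : ℕ) : 2 * (m + 1).choose 2 = (m + 1) * m := by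
  rw [Nat.choose_two_right, Nat.add_sub_cancel]
  have := Nat.even_mul_pred_self (m + 1)
  rw [Nat.add_sub_cancel] at this
  exact Nat.mul_div_cancel' this.two_dvd

theorem NMC_one (hBTY : BTY_stmt) (hCRD : CRD_stmt) (n : ℕ) : (VC n 1).ncard = 2 * n ^ 2 := by
  rw [NMC_sum hBTY hCRD, sum_range_succ, sum_range_succ, range_zero, sum_empty]
  simp only [Nat.choose_zero_right, Nat.choose_one_right, Nat.sub_zero, Nat.sub_self, mul_one,
    mul_zero, zero_add, add_zero, one_mul, pow_one]
  rcases n with _ | m
  · simp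
  · have := NMC_two m
    nlinarith

theorem NMC (_hCNT : CNT_stmt) (hBTY : BTY_stmt) (hCRD : CRD_stmt) : NMC_stmt := by
  refine ⟨NMC_one hBTY hCRD, ?_, ?_, ?_, ?_, ?_, ?_⟩
  · rintro n k ⟨hn, hk, h3⟩
    rcases Nat.lt_or_ge k 2 with hk2 | hk2
    · have hk1 : k = 1 := by omega
      subst hk1
      rw [NMC_one hBTY hCRD]
      have h11 : ∀ c, c ≤ 240 → 2 * n ^ 2 = c → n ≤ 10 := by
        intro c hc h
        by_contra hh
        have : 11 ≤ n := by omega
        nlinarith
      refine ⟨?_, ?_, ?_, ?_, ?_⟩ <;>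
      · intro h
        have hle := h11 _ (by norm_num) h
        interval_cases n <;> omega
    · have hbig : 240 < (VC n k).ncard ∨ (VC n k).ncard = 136 := by
        rcases Nat.lt_or_ge k 3 with hk3 | hk3
        · have hk1 : k = 2 := by omega
          subst hk1
          rcases Nat.lt_or_ge n 5 with hn5 | hn5
          · have hn4 : n = 4 := by omega
            subst hn4
            right
            rw [NMC_sum hBTY hCRD]
            decide
          · left
            rw [NMC_sum hBTY hCRD, sum_range_succ, sum_range_succ]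
            simp only [Nat.sub_self, mul_zero, Nat.choose_zero_right, mul_one, add_zero,
              Nat.choose_one_right]
            have h1 : 10 ≤ n.choose 2 := Nat.choose_le_choose 2 hn5
            have h2 : 6 ≤ (n - 1).choose 2 := Nat.choose_le_choose 2 (show 4 ≤ n - 1 by omega)
            have h4 : 5 * 6 ≤ n * (n - 1).choose 2 := Nat.mul_le_mul hn5 h2
            norm_num
            omega
        · left
          rcases Nat.lt_or_ge k 4 with hk4 | hk4
          · have hk1 : k = 3 := by omega
            subst hk1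
            have hn5 : 5 ≤ n := by omega
            have h := NMC_ge hBTY hCRD n 3 2 (by norm_num)
            have h1 : 10 ≤ n.choose 2 := Nat.choose_le_choose 2 hn5
            have h2 : 3 ≤ (n - 2).choose 2 := Nat.choose_le_choose 2 (show 3 ≤ n - 2 by omega)
            have h4 : 10 * 3 ≤ n.choose 2 * (n - 2).choose 2 := Nat.mul_le_mul h1 h2
            norm_num at h
            omega
          · have h := NMC_ge hBTY hCRD n k k le_rfl
            rw [Nat.sub_self, mul_zero, Nat.choose_zero_right, mul_one, add_zero] at h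
            have h1 : 35 ≤ n.choose k := by
              calc 35 = (7).choose 3 := by decide
                _ ≤ (k + 3).choose 3 := Nat.choose_le_choose 3 (by omega)
                _ = (k + 3).choose k := by
                  rw [← Nat.choose_symm_of_eq_add (show k + 3 = k + 3 from rfl)]
                _ ≤ n.choose k := Nat.choose_le_choose k (by omega)
            have h2 : 16 ≤ 2 ^ k := by
              calc 16 = 2 ^ 4 := by norm_num
                _ ≤ 2 ^ k := Nat.pow_le_pow_right (by norm_num) hk4
            have h4 : 35 * 16 ≤ n.choose k * 2 ^ k := Nat.mul_le_mul h1 h2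
            omega
      rcases hbig with h | h
      · refine ⟨?_, ?_, ?_, ?_, ?_⟩ <;> omega
      · rw [h]
        norm_num
  · rw [NMC_sum hBTY hCRD]; decide
  · rw [NMC_sum hBTY hCRD]; decide
  · rw [NMC_sum hBTY hCRD]; decide
  · rintro n k ⟨hn, hk, h3⟩ hk2
    obtain ⟨j, rfl⟩ : ∃ j, k = j + 1 := ⟨k - 1, by omega⟩
    obtain ⟨m, hm⟩ : ∃ m, n - j = m + 1 := ⟨n - j - 1, by omega⟩
    rw [NMC_sum hBTY hCRD, sum_range_succ, sum_range_succ, NMC_card hCRD]
    have e1 : j + 1 - j = 1 := by omega
    rw [Nat.sub_self, e1, mul_zero, Nat.choose_zero_right, mul_one, add_zero, mul_one]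
    have h1 : n.choose (j + 1) * (j + 1) = n.choose j * (n - j) := Nat.choose_succ_right_eq n j
    rw [hm] at h1 ⊢
    have h2 := NMC_two m
    have h4 : n.choose j * (m + 1).choose 2 * 2 ^ (j + 2) =
        n.choose (j + 1) * ((j + 1) * m) * 2 ^ (j + 1) := by
      calc n.choose j * (m + 1).choose 2 * 2 ^ (j + 2)
          = n.choose j * (2 * (m + 1).choose 2) * 2 ^ (j + 1) := by ring
        _ = (n.choose j * (m + 1)) * m * 2 ^ (j + 1) := by rw [h2]; ring
        _ = _ := by rw [← h1]; ring
    rw [h4]
    have h5 : 4 ≤ (j + 1) * m := by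
      have : 2 ≤ m := by omega
      calc 4 = 2 * 2 := by norm_num
        _ ≤ (j + 1) * m := Nat.mul_le_mul (by omega) this
    have h6 : n.choose (j + 1) * 4 * 2 ^ (j + 1) ≤
        n.choose (j + 1) * ((j + 1) * m) * 2 ^ (j + 1) := by
      apply Nat.mul_le_mul_right
      exact Nat.mul_le_mul_left _ h5
    calc 5 * (n.choose (j + 1) * 2 ^ (j + 1))
        = n.choose (j + 1) * 4 * 2 ^ (j + 1) + n.choose (j + 1) * 2 ^ (j + 1) := by ring
      _ ≤ _ := by
        apply Nat.add_le_add_right
        exact le_trans h6 (Nat.le_add_left _ _)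
  · intro n
    rw [NMC_card hCRD]
    simp
    ring

end Pool.Agent.SOL
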