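import Pool.Agent.helper1.SOL.SpecN

set_option autoImplicit false

namespace Pool.Agent.SOL

open Pool.Agent.helper54.SOG Finset

theorem ODG_neg {A : Type*} [AddCommGroup A] {S : Set A} (hS : Sy S) {a b : A}
    (h : Good S a b) : Good S (-a) (-b) := by
  have hn : ∀ x, -x ∈ S ↔ x ∈ S := fun x => ⟨fun h => by simpa using hS.neg _ h, hS.neg x⟩
  intro w hw h1 h2 h3 h4
  obtain ⟨v, hv, e1, e2, e3⟩ := h (-w) (hS.neg w hw)
    (by rw [← hn]; rwa [show -(b - -w) = -b - w by abel])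
    (fun e => h2 (by rw [← e, neg_neg]))
    (fun e => h3 (by rw [← hn]; rwa [show -(-a - w) = a - -w by abel]))
    (fun e => h4 (by rw [show -b - -a = -(b - a) by abel, ← e, neg_neg]))
  refine ⟨-v, hS.neg v hv, fun e => e1 (neg_injective e), ?_, ?_⟩
  · rw [show -a - -v = -(a - v) by abel]
    exact hS.neg _ e2
  · rw [show w - -v = -(-w - v) by abel]
    exact hS.neg _ e3

theorem ODG (hSYA : SYA_stmt) : ODG_stmt := by
  intro n m S S' ψ hS hS' x hx hG hsh hshn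
  obtain ⟨h1, h2, -⟩ := hSYA n m S S' ψ hS hS'
  have key : ∀ x ∈ S, ∀ y ∈ S, x - y ∈ S → Good S x y →
      (∀ y' ∈ S', up ψ x - y' ∈ S' → y' - up ψ x ∈ SS S' (up ψ x) y') →
      up ψ (y - x) = up ψ y - up ψ x := by
    intro x hx y hy hxy hg hs
    have h3 := hs (up ψ y) (up_mem ψ hy) ((h1 x hx y hy).2 hxy)
    rw [h2 x hx y hy] at h3
    obtain ⟨z, ⟨hz1, hz2, hz3, hz4, hz5⟩, hz⟩ := h3
    have h4 : z = y - x := by
      by_contra hne
      obtain ⟨v, hv, e1, e2, e3⟩ := hg z hz1 hz2 hz3 hz4 hne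
      exact e1 (hz5 v hv e2 e3)
    rw [← h4, hz]
  obtain ⟨y, hy, hxy, hg1, hg2⟩ := hG
  have hyx : y - x ∈ S := by
    have := hS.neg _ hxy
    rwa [neg_sub] at this
  have k1 := key x hx y hy hxy hg1 hsh
  have hg3 : Good S (-x) (y - x) := by
    have := ODG_neg hS hg2
    rwa [neg_sub] at this
  have k2 := key (-x) (hS.neg x hx) (y - x) hyx
    (by rw [show -x - (y - x) = -y by abel]; exact hS.neg y hy) hg3 hshn
  rw [show y - x - -x = y by abel, k1] at k2
  have k3 : up ψ (-x) = up ψ y - up ψ x - up ψ y := by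
    rw [eq_sub_iff_add_eq, add_comm]
    exact eq_sub_iff_add_eq.1 k2
  rw [k3]
  abel

end Pool.Agent.SOL
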